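import Pool.Agent.Helper92.RK.Defs

set_option autoImplicit false

namespace Pool.Agent.Helper61.RK.DT1

open Finset Pool.Agent.Helper92.RK

variable {n : ℕ}

lemma mem_vr {T : Tm n} {i : Fin n} : i ∈ vr T ↔ ∃ p ∈ T, p.1 = i := by
  simp [vr]

lemma vr_mono {S T : Tm n} (h : S ⊆ T) : vr S ⊆ vr T := Finset.image_subset_image h

lemma con_mono {S T : Tm n} (h : S ⊆ T) (hT : Con T) : Con S :=
  fun p hp q hq e => hT p (h hp) q (h hq) e

lemma sat_mono {S T : Tm n} (h : S ⊆ T) {x : Fin n → Bool} (hT : Sat T x) : Sat S x :=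
  fun p hp => hT p (h hp)

lemma fl_self (x : Fin n → Bool) (i : Fin n) : fl x i i = !x i := by simp [fl]

lemma fl_ne (x : Fin n → Bool) {i j : Fin n} (h : j ≠ i) : fl x i j = x j := by simp [fl, h]

lemma fl_fl (x : Fin n → Bool) (i : Fin n) : fl (fl x i) i = x := by
  funext a
  by_cases h : a = i
  · subst h; simp [fl]
  · simp [fl, h]

lemma fl_comm (x : Fin n → Bool) {i j : Fin n} (h : i ≠ j) : fl (fl x i) j = fl (fl x j) i := by
  funext a
  by_cases hi : a = i
  · subst hi; simp [fl, h]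
  · by_cases hj : a = j
    · subst hj; simp [fl, hi]
    · simp [fl, hi, hj]

lemma sat_fl {s : Tm n} {i : Fin n} (h : i ∉ vr s) (x : Fin n → Bool) :
    Sat s (fl x i) ↔ Sat s x := by
  have key : ∀ p ∈ s, fl x i p.1 = x p.1 := by
    intro p hp
    apply fl_ne
    rintro rfl
    exact h (mem_vr.2 ⟨p, hp, rfl⟩)
  constructor
  · intro hs p hp; rw [← key p hp]; exact hs p hp
  · intro hs p hp; rw [key p hp]; exact hs p hp

/-- flip as a permutation -/
def flE (i : Fin n) : (Fin n → Bool) ≃ (Fin n → Bool) where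
  toFun x := fl x i
  invFun x := fl x i
  left_inv x := fl_fl x i
  right_inv x := fl_fl x i

lemma sum_fl (i : Fin n) (f : (Fin n → Bool) → ℝ) : ∑ x, f (fl x i) = ∑ x, f x :=
  Equiv.sum_comp (flE i) f

lemma pr_mono {E E' : (Fin n → Bool) → Prop} (h : ∀ x, E x → E' x) : pr E ≤ pr E' := by
  classical
  unfold pr
  apply div_le_div_of_nonneg_right _ (by positivity)
  have : (univ.filter E) ⊆ (univ.filter E') := by
    intro x hx
    rw [Finset.mem_filter] at hx ⊢
    exact ⟨hx.1, h x hx.2⟩
  exact_mod_cast Finset.card_le_card this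

lemma pr_le_add {E E1 E2 : (Fin n → Bool) → Prop} (h : ∀ x, E x → E1 x ∨ E2 x) :
    pr E ≤ pr E1 + pr E2 := by
  classical
  unfold pr
  rw [← add_div]
  apply div_le_div_of_nonneg_right _ (by positivity)
  have : (univ.filter E) ⊆ (univ.filter E1) ∪ (univ.filter E2) := by
    intro x hx
    rw [Finset.mem_filter] at hx
    rw [Finset.mem_union, Finset.mem_filter, Finset.mem_filter]
    rcases h x hx.2 with h | h
    · exact Or.inl ⟨Finset.mem_univ _, h⟩
    · exact Or.inr ⟨Finset.mem_univ _, h⟩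
  exact_mod_cast (Finset.card_le_card this).trans (Finset.card_union_le _ _)

lemma pr_eq_sum (E : (Fin n → Bool) → Prop) [DecidablePred E] :
    pr E = (∑ x : Fin n → Bool, if E x then (1 : ℝ) else 0) / 2 ^ n := by
  unfold pr
  congr 1
  rw [Finset.sum_boole]
  congr 2
  ext x
  simp

lemma pr_zero {E : (Fin n → Bool) → Prop} (h : ∀ x, ¬ E x) : pr E = 0 := by
  classical
  rw [pr_eq_sum]
  rw [Finset.sum_eq_zero (fun x _ => if_neg (h x))]
  simp

/-- fixing the variables of `Y` -/
lemma extend (Z : (Fin n → Bool) → Prop) (c : ℝ) (σ : Tm n) (hσ : Con σ)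
    (hc : c * (1 / 2 : ℝ) ^ σ.card ≤ pr (fun x => Z x ∧ Sat σ x)) (Y : Finset (Fin n)) :
    ∃ s : Tm n, σ ⊆ s ∧ Con s ∧ s.card ≤ σ.card + Y.card ∧ vr s = vr σ ∪ Y ∧
      c * (1 / 2 : ℝ) ^ s.card ≤ pr (fun x => Z x ∧ Sat s x) := by
  classical
  induction Y using Finset.induction_on with
  | empty => exact ⟨σ, subset_rfl, hσ, by simp, by simp, hc⟩
  | insert y Y hy ih =>
    obtain ⟨s, h1, h2, h3, h4, h5⟩ := ih
    by_cases hys : y ∈ vr s
    · refine ⟨s, h1, h2, ?_, ?_, h5⟩
      · rw [Finset.card_insert_of_notMem hy]; omega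
      · rw [h4]
        rw [h4] at hys
        ext a
        simp only [Finset.mem_union, Finset.mem_insert] at hys ⊢
        constructor
        · rintro (h | h)
          · exact Or.inl h
          · exact Or.inr (Or.inr h)
        · rintro (h | rfl | h)
          · exact Or.inl h
          · exact hys
          · exact Or.inr h
    · have key : ∃ u : Bool, c * (1 / 2 : ℝ) ^ (s.card + 1) ≤
          pr (fun x => Z x ∧ Sat (insert (y, u) s) x) := by
        by_contra hcon
        push Not at hcon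
        have ha := hcon true
        have hb := hcon false
        have hle : pr (fun x => Z x ∧ Sat s x) ≤
            pr (fun x => Z x ∧ Sat (insert (y, true) s) x) +
            pr (fun x => Z x ∧ Sat (insert (y, false) s) x) := by
          apply pr_le_add
          rintro x ⟨hz, hs⟩
          cases hxy : x y with
          | true =>
            left
            refine ⟨hz, ?_⟩
            intro p hp
            rcases Finset.mem_insert.1 hp with rfl | hp
            · exact hxy
            · exact hs p hp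
          | false =>
            right
            refine ⟨hz, ?_⟩
            intro p hp
            rcases Finset.mem_insert.1 hp with rfl | hp
            · exact hxy
            · exact hs p hp
        rw [pow_succ] at ha hb
        linarith
      obtain ⟨u, hu⟩ := key
      have hnot : (y, u) ∉ s := fun h => hys (mem_vr.2 ⟨_, h, rfl⟩)
      refine ⟨insert (y, u) s, h1.trans (Finset.subset_insert _ _), ?_, ?_, ?_, ?_⟩
      · intro p hp q hq e
        rcases Finset.mem_insert.1 hp with rfl | hp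
        · rcases Finset.mem_insert.1 hq with rfl | hq
          · rfl
          · exact absurd (mem_vr.2 ⟨q, hq, e.symm⟩) hys
        · rcases Finset.mem_insert.1 hq with rfl | hq
          · exact absurd (mem_vr.2 ⟨p, hp, e⟩) hys
          · exact h2 p hp q hq e
      · rw [Finset.card_insert_of_notMem hnot, Finset.card_insert_of_notMem hy]; omega
      · have : vr (insert (y, u) s) = insert y (vr s) := by simp [vr, Finset.image_insert]
        rw [this, h4, Finset.union_insert]
      · rw [Finset.card_insert_of_notMem hnot]; exact hu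

lemma vi_cases (F : Finset (Tm n)) (x : Fin n → Bool) : vi F x = 0 ∨ vi F x = 1 := by
  unfold vi
  split_ifs <;> simp

lemma DD_fli (F : Finset (Tm n)) {i j : Fin n} (x : Fin n → Bool) :
    DD F i j (fl x i) = - DD F i j x := by
  unfold DD
  rw [fl_fl]
  ring

lemma DD_flj (F : Finset (Tm n)) {i j : Fin n} (h : i ≠ j) (x : Fin n → Bool) :
    DD F i j (fl x j) = - DD F i j x := by
  unfold DD
  rw [fl_fl, fl_comm x h, fl_comm (fl x j) h, fl_fl]
  ring

lemma chi_pair {i j : Fin n} (h : i ≠ j) (x : Fin n → Bool) :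
    chi {i, j} x = (if x i then -1 else 1) * (if x j then -1 else 1) := by
  unfold chi
  rw [Finset.prod_pair h]

lemma chi_fli {i j : Fin n} (h : i ≠ j) (x : Fin n → Bool) :
    chi {i, j} (fl x i) = - chi {i, j} x := by
  rw [chi_pair h, chi_pair h, fl_self, fl_ne x (Ne.symm h)]
  cases x i <;> cases x j <;> norm_num

lemma chi_flj {i j : Fin n} (h : i ≠ j) (x : Fin n → Bool) :
    chi {i, j} (fl x j) = - chi {i, j} x := by
  rw [chi_pair h, chi_pair h, fl_self, fl_ne x h]
  cases x i <;> cases x j <;> norm_num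

/-- the correlation in terms of the mixed difference -/
lemma Mco_eq (F : Finset (Tm n)) (σ : Tm n) {i j : Fin n} (h : i ≠ j) (hi : i ∉ vr σ)
    (hj : j ∉ vr σ) [DecidablePred (Sat σ)] :
    4 * Mco F σ {i, j} =
      (∑ x : Fin n → Bool, if Sat σ x then chi {i, j} x * DD F i j x else 0) / 2 ^ n := by
  classical
  have h0 : Mco F σ {i, j} =
      (∑ x : Fin n → Bool, if Sat σ x then vi F x * chi {i, j} x else 0) / 2 ^ n := by
    unfold Mco vi
    congr 1
    apply Finset.sum_congr rfl
    intro x _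
    by_cases h1 : val F x <;> by_cases h2 : Sat σ x <;> simp [h1, h2]
  set A := ∑ x : Fin n → Bool, if Sat σ x then vi F x * chi {i, j} x else 0 with hA
  have e1 : ∑ x : Fin n → Bool, (if Sat σ x then vi F (fl x i) * chi {i, j} x else 0) = - A := by
    rw [hA, ← sum_fl i, ← Finset.sum_neg_distrib]
    apply Finset.sum_congr rfl
    intro x _
    rw [fl_fl, chi_fli h]
    by_cases h2 : Sat σ x
    · rw [if_pos h2, if_pos ((sat_fl hi x).2 h2)]; ring
    · rw [if_neg h2, if_neg (fun h3 => h2 ((sat_fl hi x).1 h3))]; ring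
  have e2 : ∑ x : Fin n → Bool, (if Sat σ x then vi F (fl x j) * chi {i, j} x else 0) = - A := by
    rw [hA, ← sum_fl j, ← Finset.sum_neg_distrib]
    apply Finset.sum_congr rfl
    intro x _
    rw [fl_fl, chi_flj h]
    by_cases h2 : Sat σ x
    · rw [if_pos h2, if_pos ((sat_fl hj x).2 h2)]; ring
    · rw [if_neg h2, if_neg (fun h3 => h2 ((sat_fl hj x).1 h3))]; ring
  have e3 : ∑ x : Fin n → Bool,
      (if Sat σ x then vi F (fl (fl x i) j) * chi {i, j} x else 0) = A := by
    have : ∀ x : Fin n → Bool, (if Sat σ x then vi F (fl (fl x i) j) * chi {i, j} x else 0) =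
        (fun y => - (if Sat σ y then vi F (fl y j) * chi {i, j} y else 0)) (fl x i) := by
      intro x
      simp only
      rw [chi_fli h]
      by_cases h2 : Sat σ x
      · rw [if_pos h2, if_pos ((sat_fl hi x).2 h2)]; ring
      · rw [if_neg h2, if_neg (fun h3 => h2 ((sat_fl hi x).1 h3))]; ring
    rw [Finset.sum_congr rfl (fun x _ => this x),
      sum_fl i (fun y => - (if Sat σ y then vi F (fl y j) * chi {i, j} y else 0)),
      Finset.sum_neg_distrib, e2]
    ring
  have e4 : ∑ x : Fin n → Bool, (if Sat σ x then chi {i, j} x * DD F i j x else 0) = 4 * A := by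
    have : ∀ x : Fin n → Bool, (if Sat σ x then chi {i, j} x * DD F i j x else 0) =
        (if Sat σ x then vi F x * chi {i, j} x else 0) +
        (if Sat σ x then vi F (fl (fl x i) j) * chi {i, j} x else 0) -
        (if Sat σ x then vi F (fl x i) * chi {i, j} x else 0) -
        (if Sat σ x then vi F (fl x j) * chi {i, j} x else 0) := by
      intro x
      unfold DD
      by_cases h2 : Sat σ x
      · simp only [if_pos h2]; ring
      · simp only [if_neg h2]; ring
    rw [Finset.sum_congr rfl (fun x _ => this x), Finset.sum_sub_distrib, Finset.sum_sub_distrib,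
      Finset.sum_add_distrib, e1, e2, e3]
    ring
  rw [e4, h0]
  ring

lemma DD_int (F : Finset (Tm n)) (i j : Fin n) (x : Fin n → Bool) (h : DD F i j x ≠ 0) :
    1 ≤ |DD F i j x| := by
  unfold DD at h ⊢
  rcases vi_cases F x with h1 | h1 <;> rcases vi_cases F (fl (fl x i) j) with h2 | h2 <;>
  rcases vi_cases F (fl x i) with h3 | h3 <;> rcases vi_cases F (fl x j) with h4 | h4 <;>
  (rw [h1, h2, h3, h4] at h ⊢; first | (exfalso; apply h; norm_num; done) | (norm_num; done))

lemma chi_abs (S : Finset (Fin n)) (x : Fin n → Bool) : |chi S x| = 1 := by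
  unfold chi
  rw [Finset.abs_prod]
  apply Finset.prod_eq_one
  intro i _
  split_ifs <;> norm_num

/-- `b` without its literals at `i` and `j` -/
def st (i j : Fin n) (b : Tm n) : Tm n := b.filter fun p => p.1 ≠ i ∧ p.1 ≠ j

lemma mem_st {i j : Fin n} {b : Tm n} {p : Fin n × Bool} :
    p ∈ st i j b ↔ p ∈ b ∧ p.1 ≠ i ∧ p.1 ≠ j := by
  simp [st]

lemma st_sub (i j : Fin n) (b : Tm n) : st i j b ⊆ b := Finset.filter_subset _ _

lemma notMem_vr_st_i {i j : Fin n} {b : Tm n} : i ∉ vr (st i j b) := by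
  intro h
  obtain ⟨p, hp, e⟩ := mem_vr.1 h
  exact (mem_st.1 hp).2.1 e

lemma notMem_vr_st_j {i j : Fin n} {b : Tm n} : j ∉ vr (st i j b) := by
  intro h
  obtain ⟨p, hp, e⟩ := mem_vr.1 h
  exact (mem_st.1 hp).2.2 e

/-- conflict of two consistent sets -/
lemma conflict {a b : Tm n} (ha : Con a) (hb : Con b) (h : ¬ Con (a ∪ b)) :
    ∃ p ∈ a, ∃ q ∈ b, p.1 = q.1 ∧ p ≠ q := by
  by_contra hcon
  push Not at hcon
  apply h
  intro p hp q hq e
  rcases Finset.mem_union.1 hp with hp | hp <;> rcases Finset.mem_union.1 hq with hq | hq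
  · exact ha p hp q hq e
  · exact hcon p hp q hq e
  · exact (hcon q hq p hp e.symm).symm
  · exact hb p hp q hq e

lemma not_sat_of_conflict {x : Fin n → Bool} {p q : Fin n × Bool} (e : p.1 = q.1) (hne : p ≠ q)
    (hp : x p.1 = p.2) (hq : x q.1 = q.2) : False := by
  apply hne
  apply Prod.ext e
  rw [← hp, ← hq, e]

/-- a point satisfies `b` after flips only at `i`, `j`: then it satisfies `st i j b` -/
lemma sat_st_of {i j : Fin n} {b : Tm n} {x y : Fin n → Bool}
    (hxy : ∀ a, a ≠ i → a ≠ j → x a = y a) (h : Sat b y) : Sat (st i j b) x := by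
  intro p hp
  obtain ⟨h1, h2, h3⟩ := mem_st.1 hp
  rw [hxy p.1 h2 h3]
  exact h p h1

theorem main (hK : S_KIL) : S_DT1 := by
  classical
  intro k r c hc
  obtain ⟨h, c', hc', hkil⟩ := hK (2 * k) (c / 4) (by positivity)
  set g : ℕ := 2 * k + 2 * k * h with hg
  refine ⟨r + g + 2 * k + k * (r + g + 2), c' / 4 * (1 / 2) ^ (r + g), by positivity, ?_⟩
  intro n F T ρ l l' hRead hCon hTF hl hl' hll hTρ hlρ hl'ρ hρr hLng hmass
  obtain ⟨i, hi⟩ : ∃ i, i = l.1 := ⟨_, rfl⟩
  obtain ⟨j, hj⟩ : ∃ j, j = l'.1 := ⟨_, rfl⟩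
  rw [← hi] at hlρ hLng hmass ⊢
  rw [← hj] at hl'ρ hmass ⊢
  have hTcon : Con T := con_mono Finset.subset_union_left hTρ
  have hρcon : Con ρ := con_mono Finset.subset_union_right hTρ
  have hij : i ≠ j := by
    intro e
    apply hll
    apply hTcon l hl l' hl'
    rw [← hi, ← hj, e]
  set τ : Tm n := st i j (T ∪ ρ) with hτ
  have hτcon : Con τ := con_mono (st_sub _ _ _) hTρ
  have hiτ : i ∉ vr τ := notMem_vr_st_i
  have hjτ : j ∉ vr τ := notMem_vr_st_j
  have hρτ : ρ ⊆ τ := by
    intro p hp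
    rw [hτ, mem_st]
    refine ⟨Finset.mem_union_right _ hp, ?_, ?_⟩
    · rintro e; exact hlρ (mem_vr.2 ⟨p, hp, e⟩)
    · rintro e; exact hl'ρ (mem_vr.2 ⟨p, hp, e⟩)
  have hτcard : (T ∪ ρ).card ≤ τ.card + 2 := by
    have hsub : (T ∪ ρ) ⊆ insert l (insert l' τ) := by
      intro p hp
      by_cases e1 : p.1 = i
      · have : p = l := hTρ p hp l (Finset.mem_union_left _ hl) (by rw [e1, hi])
        rw [this]; exact Finset.mem_insert_self _ _
      · by_cases e2 : p.1 = j
        · have : p = l' := hTρ p hp l' (Finset.mem_union_left _ hl') (by rw [e2, hj])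
          rw [this]; exact Finset.mem_insert_of_mem (Finset.mem_insert_self _ _)
        · apply Finset.mem_insert_of_mem
          apply Finset.mem_insert_of_mem
          rw [hτ, mem_st]
          exact ⟨hp, e1, e2⟩
    calc (T ∪ ρ).card ≤ (insert l (insert l' τ)).card := Finset.card_le_card hsub
      _ ≤ (insert l' τ).card + 1 := Finset.card_insert_le _ _
      _ ≤ (τ.card + 1) + 1 := by
          have := Finset.card_insert_le l' τ
          omega
      _ = τ.card + 2 := by ring
  set near : Finset (Tm n) := F.filter (fun b => i ∈ vr b ∨ j ∈ vr b) with hnear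
  have hnearcard : near.card ≤ 2 * k := by
    have : near ⊆ (F.filter fun b => i ∈ vr b) ∪ (F.filter fun b => j ∈ vr b) := by
      intro b hb
      rw [hnear, Finset.mem_filter] at hb
      rw [Finset.mem_union, Finset.mem_filter, Finset.mem_filter]
      rcases hb.2 with h | h
      · exact Or.inl ⟨hb.1, h⟩
      · exact Or.inr ⟨hb.1, h⟩
    have h1 := Finset.card_le_card this
    have h2 := Finset.card_union_le (F.filter fun b => i ∈ vr b) (F.filter fun b => j ∈ vr b)
    have h3 := hRead i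
    have h4 := hRead j
    omega
  have hmass1 : c / 4 * (1 / 2 : ℝ) ^ τ.card ≤ pr (fun x => DD F i j x ≠ 0 ∧ Sat τ x) := by
    have h1 : c / 4 * (1 / 2 : ℝ) ^ τ.card ≤ c * (1 / 2 : ℝ) ^ (T ∪ ρ).card := by
      have h2 : (1 / 2 : ℝ) ^ (τ.card + 2) ≤ (1 / 2 : ℝ) ^ (T ∪ ρ).card :=
        pow_le_pow_of_le_one (by norm_num) (by norm_num) hτcard
      have h3 : c * (1 / 2 : ℝ) ^ (τ.card + 2) ≤ c * (1 / 2 : ℝ) ^ (T ∪ ρ).card :=
        mul_le_mul_of_nonneg_left h2 hc.le
      calc c / 4 * (1 / 2 : ℝ) ^ τ.card = c * (1 / 2 : ℝ) ^ (τ.card + 2) := by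
            rw [pow_add]; ring
        _ ≤ _ := h3
    refine h1.trans (hmass.trans (pr_mono ?_))
    rintro x ⟨hs, hd⟩
    exact ⟨hd, sat_mono (st_sub _ _ _) hs⟩
  obtain ⟨s1, hτs1, hs1c, hs1card, hs1v, hs1K, hs1m⟩ :=
    hkil n (fun x => DD F i j x ≠ 0) τ (near.image (st i j)) hτcon
      (Finset.card_image_le.trans hnearcard) hmass1
  set Y : Finset (Fin n) := (near.filter (fun b => Con (st i j b ∪ s1))).biUnion
    (fun b => vr (st i j b \ s1)) with hY
  have hYcard : Y.card ≤ 2 * k * h := by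
    rw [hY]
    refine (Finset.card_biUnion_le_card_mul _ _ h ?_).trans ?_
    · intro b hb
      rw [Finset.mem_filter] at hb
      have h1 := hs1K (st i j b) (Finset.mem_image_of_mem _ hb.1)
      rcases h1 with h1 | h1
      · exact absurd hb.2 h1
      · exact (Finset.card_image_le.trans h1.le)
    · apply Nat.mul_le_mul_right
      exact (Finset.card_filter_le _ _).trans hnearcard
  obtain ⟨s2, hs12, hs2c, hs2card, hs2v, hs2m⟩ :=
    extend (fun x => DD F i j x ≠ 0) c' s1 hs1c hs1m Y
  have hvs2 : ∀ a, a ∈ vr s2 → a ∈ vr τ ∨ ∃ b, a ∈ vr (st i j b) := by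
    intro a ha
    rw [hs2v, Finset.mem_union] at ha
    rcases ha with ha | ha
    · rcases hs1v a ha with h1 | ⟨T', hT', h2⟩
      · exact Or.inl h1
      · obtain ⟨b, hb, rfl⟩ := Finset.mem_image.1 hT'
        exact Or.inr ⟨b, h2⟩
    · rw [hY, Finset.mem_biUnion] at ha
      obtain ⟨b, hb, h2⟩ := ha
      exact Or.inr ⟨b, vr_mono Finset.sdiff_subset h2⟩
  have his2 : i ∉ vr s2 := by
    intro h1
    rcases hvs2 i h1 with h2 | ⟨b, h2⟩
    · exact hiτ h2
    · exact notMem_vr_st_i h2
  have hjs2 : j ∉ vr s2 := by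
    intro h1
    rcases hvs2 j h1 with h2 | ⟨b, h2⟩
    · exact hjτ h2
    · exact notMem_vr_st_j h2
  have hτs2 : τ ⊆ s2 := hτs1.trans hs12
  have hρs2 : ρ ⊆ s2 := hρτ.trans hτs2
  have hs2g : (s2 \ τ).card ≤ g := by
    have h1 : (s2 \ τ).card + τ.card = s2.card := Finset.card_sdiff_add_card_eq_card hτs2
    omega
  have halive : ∀ b ∈ near, Con (st i j b ∪ s2) → st i j b ⊆ s2 := by
    intro b hb hcb p hp
    by_cases hps : p ∈ s1
    · exact hs12 hps
    · have hpY : p.1 ∈ Y := by
        rw [hY, Finset.mem_biUnion]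
        refine ⟨b, ?_, mem_vr.2 ⟨p, Finset.mem_sdiff.2 ⟨hp, hps⟩, rfl⟩⟩
        rw [Finset.mem_filter]
        refine ⟨hb, con_mono (Finset.union_subset_union_right hs12) hcb⟩
      have : p.1 ∈ vr s2 := by rw [hs2v]; exact Finset.mem_union_right _ hpY
      obtain ⟨q, hq, e⟩ := mem_vr.1 this
      have : q = p := hcb q (Finset.mem_union_right _ hq) p (Finset.mem_union_left _ hp) e
      rw [← this]; exact hq
  have hdead : ∀ b : Tm n, ∃ q : Fin n × Bool, (b ∈ near ∧ ¬ Con (st i j b ∪ s2)) →
      q ∈ s2 ∧ ∃ p ∈ st i j b, p.1 = q.1 ∧ p ≠ q := by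
    intro b
    by_cases hb : b ∈ near ∧ ¬ Con (st i j b ∪ s2)
    · have hbF : b ∈ F := (Finset.mem_filter.1 hb.1).1
      obtain ⟨p, hp, q, hq, e, hne⟩ :=
        conflict (con_mono (st_sub i j b) (hCon b hbF)) hs2c hb.2
      exact ⟨q, fun _ => ⟨hq, p, hp, e, hne⟩⟩
    · exact ⟨l, fun h1 => absurd h1 hb⟩
  choose dq hdq using hdead
  set AL : Finset (Tm n) := near.filter (fun b => i ∈ vr b ∧ st i j b ⊆ s2) with hAL
  set σ : Tm n := ((ρ ∪ (s2 \ τ)) ∪ (near.image dq ∩ s2)) ∪
    AL.biUnion (fun b => st i j (T \ b)) with hσ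
  have hTst : ∀ b : Tm n, st i j (T \ b) ⊆ s2 := by
    intro b p hp
    apply hτs2
    rw [hτ, mem_st]
    obtain ⟨h1, h2⟩ := mem_st.1 hp
    exact ⟨Finset.mem_union_left _ (Finset.mem_sdiff.1 h1).1, h2⟩
  have hσs2 : σ ⊆ s2 := by
    rw [hσ]
    refine Finset.union_subset (Finset.union_subset (Finset.union_subset hρs2
      Finset.sdiff_subset) Finset.inter_subset_right) ?_
    apply Finset.biUnion_subset.2
    intro b _
    exact hTst b
  have hALcard : AL.card ≤ k := by
    refine le_trans (Finset.card_le_card ?_) (hRead i)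
    intro b hb
    rw [hAL, Finset.mem_filter] at hb
    rw [Finset.mem_filter]
    exact ⟨(Finset.mem_filter.1 hb.1).1, hb.2.1⟩
  have hALb : ∀ b ∈ AL, (st i j (T \ b)).card ≤ r + g + 2 := by
    intro b hb
    rw [hAL, Finset.mem_filter] at hb
    obtain ⟨hbn, hib, hbs⟩ := hb
    have hbF : b ∈ F := (Finset.mem_filter.1 hbn).1
    have hcb : Con (b ∪ ρ) := by
      by_contra hcon
      obtain ⟨p, hp, q, hq, e, hne⟩ := conflict (hCon b hbF) hρcon hcon
      apply hne
      apply hs2c p _ q (hρs2 hq) e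
      apply hbs
      rw [mem_st]
      refine ⟨hp, ?_, ?_⟩
      · intro e1
        exact hlρ (mem_vr.2 ⟨q, hq, by rw [← e, e1]⟩)
      · intro e1
        exact hl'ρ (mem_vr.2 ⟨q, hq, by rw [← e, e1]⟩)
    have h1 : T.card ≤ b.card := hLng b hbF hib hcb
    have h2 : (T \ b).card + (T ∩ b).card = T.card := Finset.card_sdiff_add_card_inter T b
    have h3 : (b \ T).card + (b ∩ T).card = b.card := Finset.card_sdiff_add_card_inter b T
    have h4 : (T ∩ b).card = (b ∩ T).card := by rw [Finset.inter_comm]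
    have h5 : b \ T ⊆ (ρ ∪ (s2 \ τ)) ∪ {(i, !l.2), (j, !l'.2)} := by
      intro p hp
      obtain ⟨hpb, hpT⟩ := Finset.mem_sdiff.1 hp
      by_cases e1 : p.1 = i
      · apply Finset.mem_union_right
        have : p = (i, !l.2) := by
          apply Prod.ext e1
          by_contra hne
          apply hpT
          have : p = l := by
            apply Prod.ext
            · rw [e1, hi]
            · revert hne
              generalize p.2 = u
              generalize l.2 = v
              cases u <;> cases v <;> simp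
          rw [this]; exact hl
        rw [this]; simp
      · by_cases e2 : p.1 = j
        · apply Finset.mem_union_right
          have : p = (j, !l'.2) := by
            apply Prod.ext e2
            by_contra hne
            apply hpT
            have : p = l' := by
              apply Prod.ext
              · rw [e2, hj]
              · revert hne
                generalize p.2 = u
                generalize l'.2 = v
                cases u <;> cases v <;> simp
            rw [this]; exact hl'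
          rw [this]; simp
        · apply Finset.mem_union_left
          have hps : p ∈ s2 := hbs (mem_st.2 ⟨hpb, e1, e2⟩)
          by_cases hpτ : p ∈ τ
          · apply Finset.mem_union_left
            rw [hτ, mem_st] at hpτ
            rcases Finset.mem_union.1 hpτ.1 with h | h
            · exact absurd h hpT
            · exact h
          · exact Finset.mem_union_right _ (Finset.mem_sdiff.2 ⟨hps, hpτ⟩)
    have h6 := Finset.card_le_card h5
    have h7 := Finset.card_union_le (ρ ∪ (s2 \ τ)) {(i, !l.2), (j, !l'.2)}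
    have h8 := Finset.card_union_le ρ (s2 \ τ)
    have h9 : ({(i, !l.2), (j, !l'.2)} : Finset (Fin n × Bool)).card ≤ 2 := Finset.card_le_two
    have h10 : (st i j (T \ b)).card ≤ (T \ b).card := Finset.card_le_card (st_sub _ _ _)
    omega
  have hσcard : σ.card ≤ r + g + 2 * k + k * (r + g + 2) := by
    have h1 := Finset.card_union_le ((ρ ∪ (s2 \ τ)) ∪ (near.image dq ∩ s2))
      (AL.biUnion (fun b => st i j (T \ b)))
    have h2 := Finset.card_union_le (ρ ∪ (s2 \ τ)) (near.image dq ∩ s2)
    have h3 := Finset.card_union_le ρ (s2 \ τ)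
    have h4 : (near.image dq ∩ s2).card ≤ 2 * k :=
      (Finset.card_le_card Finset.inter_subset_left).trans
        (Finset.card_image_le.trans hnearcard)
    have h5 : (AL.biUnion (fun b => st i j (T \ b))).card ≤ k * (r + g + 2) :=
      (Finset.card_biUnion_le_card_mul _ _ _ hALb).trans (Nat.mul_le_mul_right _ hALcard)
    rw [hσ]
    omega
  have hiσ : i ∉ vr σ := fun h1 => his2 (vr_mono hσs2 h1)
  have hjσ : j ∉ vr σ := fun h1 => hjs2 (vr_mono hσs2 h1)
  -- the four points
  have hflag : ∀ (x : Fin n → Bool), (∀ b ∈ F, i ∈ vr b → ¬ Sat (st i j b) x) →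
      DD F i j x = 0 := by
    intro x hx
    have hval : ∀ y : Fin n → Bool, (∀ a, a ≠ i → a ≠ j → x a = y a) →
        (val F y ↔ val F (fl y i)) := by
      intro y hy
      constructor
      · rintro ⟨b, hb, hbs⟩
        refine ⟨b, hb, (sat_fl ?_ y).2 hbs⟩
        intro hib
        exact hx b hb hib (sat_st_of hy hbs)
      · rintro ⟨b, hb, hbs⟩
        have hib : i ∉ vr b := by
          intro hib
          refine hx b hb hib (sat_st_of ?_ hbs)
          intro a h1 h2
          rw [fl_ne y h1]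
          exact hy a h1 h2
        exact ⟨b, hb, (sat_fl hib y).1 hbs⟩
    have h1 : vi F x = vi F (fl x i) := by
      unfold vi
      exact if_congr (hval x (fun _ _ _ => rfl)) rfl rfl
    have h2 : vi F (fl x j) = vi F (fl (fl x i) j) := by
      rw [fl_comm x hij]
      unfold vi
      refine if_congr (hval (fl x j) (fun a _ h2 => (fl_ne x h2).symm)) rfl rfl
    unfold DD
    rw [h1, h2]
    ring
  have hA : ∀ x, Sat σ x → ¬ Sat s2 x → DD F i j x = 0 := by
    intro x hσx hs2x
    apply hflag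
    intro b hb hib hbx
    have hbn : b ∈ near := by
      rw [hnear, Finset.mem_filter]; exact ⟨hb, Or.inl hib⟩
    by_cases hcb : Con (st i j b ∪ s2)
    · have hbs := halive b hbn hcb
      apply hs2x
      intro p hp
      by_cases hpτ : p ∈ τ
      · rw [hτ, mem_st] at hpτ
        rcases Finset.mem_union.1 hpτ.1 with hpT | hpρ
        · by_cases hpb : p ∈ b
          · exact hbx p (mem_st.2 ⟨hpb, hpτ.2⟩)
          · apply hσx
            rw [hσ]
            apply Finset.mem_union_right
            rw [Finset.mem_biUnion]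
            refine ⟨b, ?_, mem_st.2 ⟨Finset.mem_sdiff.2 ⟨hpT, hpb⟩, hpτ.2⟩⟩
            rw [hAL, Finset.mem_filter]
            exact ⟨hbn, hib, hbs⟩
        · apply hσx
          rw [hσ]
          exact Finset.mem_union_left _ (Finset.mem_union_left _ (Finset.mem_union_left _ hpρ))
      · apply hσx
        rw [hσ]
        exact Finset.mem_union_left _ (Finset.mem_union_left _ (Finset.mem_union_right _
          (Finset.mem_sdiff.2 ⟨hp, hpτ⟩)))
    · obtain ⟨hq, p, hp, e, hne⟩ := hdq b ⟨hbn, hcb⟩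
      refine not_sat_of_conflict e hne (hbx p hp) (hσx _ ?_)
      rw [hσ]
      exact Finset.mem_union_left _ (Finset.mem_union_right _
        (Finset.mem_inter.2 ⟨Finset.mem_image_of_mem _ hbn, hq⟩))
  -- the local function
  set φ : Bool → Bool → ℝ := fun u v => if (∃ b ∈ near, st i j b ⊆ s2 ∧
    (∀ p ∈ b, p.1 = i → p.2 = u) ∧ (∀ p ∈ b, p.1 = j → p.2 = v)) then 1 else 0 with hφ
  set h1 : ℝ := φ true true + φ false false - φ true false - φ false true with hh1
  have hvi : ∀ y : Fin n → Bool, Sat s2 y → (∀ b ∈ F, b ∉ near → ¬ Sat b y) →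
      vi F y = φ (y i) (y j) := by
    intro y hy hnn
    have : val F y ↔ (∃ b ∈ near, st i j b ⊆ s2 ∧
        (∀ p ∈ b, p.1 = i → p.2 = y i) ∧ (∀ p ∈ b, p.1 = j → p.2 = y j)) := by
      constructor
      · rintro ⟨b, hb, hbs⟩
        have hbn : b ∈ near := by
          by_contra hbn
          exact hnn b hb hbn hbs
        refine ⟨b, hbn, ?_, ?_, ?_⟩
        · apply halive b hbn
          by_contra hcb
          obtain ⟨hq, p, hp, e, hne⟩ := hdq b ⟨hbn, hcb⟩
          exact not_sat_of_conflict e hne (hbs p (st_sub _ _ _ hp)) (hy _ hq)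
        · intro p hp e
          rw [← hbs p hp, e]
        · intro p hp e
          rw [← hbs p hp, e]
      · rintro ⟨b, hbn, hbs, hu, hv⟩
        refine ⟨b, (Finset.mem_filter.1 hbn).1, ?_⟩
        intro p hp
        by_cases e1 : p.1 = i
        · rw [e1]; exact (hu p hp e1).symm
        · by_cases e2 : p.1 = j
          · rw [e2]; exact (hv p hp e2).symm
          · exact hy p (hbs (mem_st.2 ⟨hp, e1, e2⟩))
    unfold vi
    rw [hφ]
    exact if_congr this rfl rfl
  have hB : ∀ x, Sat s2 x → DD F i j x ≠ 0 → chi {i, j} x * DD F i j x = h1 := by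
    intro x hx hd
    have hnn : ∀ b ∈ F, b ∉ near → ¬ Sat b x := by
      intro b hb hbn hbx
      apply hd
      have hib : i ∉ vr b := fun h => hbn (Finset.mem_filter.2 ⟨hb, Or.inl h⟩)
      have hjb : j ∉ vr b := fun h => hbn (Finset.mem_filter.2 ⟨hb, Or.inr h⟩)
      have e1 : vi F x = 1 := by unfold vi; rw [if_pos ⟨b, hb, hbx⟩]
      have e2 : vi F (fl x i) = 1 := by
        unfold vi; rw [if_pos ⟨b, hb, (sat_fl hib x).2 hbx⟩]
      have e3 : vi F (fl x j) = 1 := by
        unfold vi; rw [if_pos ⟨b, hb, (sat_fl hjb x).2 hbx⟩]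
      have e4 : vi F (fl (fl x i) j) = 1 := by
        unfold vi; rw [if_pos ⟨b, hb, (sat_fl hjb _).2 ((sat_fl hib x).2 hbx)⟩]
      unfold DD
      rw [e1, e2, e3, e4]
      norm_num
    have hnni : ∀ y : Fin n → Bool, (∀ b ∈ F, b ∉ near → ¬ Sat b y) →
        (∀ b ∈ F, b ∉ near → ¬ Sat b (fl y i)) := by
      intro y hy b hb hbn hbs
      have hib : i ∉ vr b := fun h => hbn (Finset.mem_filter.2 ⟨hb, Or.inl h⟩)
      exact hy b hb hbn ((sat_fl hib y).1 hbs)
    have hnnj : ∀ y : Fin n → Bool, (∀ b ∈ F, b ∉ near → ¬ Sat b y) →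
        (∀ b ∈ F, b ∉ near → ¬ Sat b (fl y j)) := by
      intro y hy b hb hbn hbs
      have hjb : j ∉ vr b := fun h => hbn (Finset.mem_filter.2 ⟨hb, Or.inr h⟩)
      exact hy b hb hbn ((sat_fl hjb y).1 hbs)
    have f1 := hvi x hx hnn
    have f2 := hvi (fl x i) ((sat_fl his2 x).2 hx) (hnni x hnn)
    have f3 := hvi (fl x j) ((sat_fl hjs2 x).2 hx) (hnnj x hnn)
    have f4 := hvi (fl (fl x i) j) ((sat_fl hjs2 _).2 ((sat_fl his2 x).2 hx))
      (hnnj _ (hnni x hnn))
    rw [fl_self, fl_ne x (Ne.symm hij)] at f2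
    rw [fl_self, fl_ne x hij] at f3
    rw [fl_self, fl_ne _ hij, fl_self, fl_ne x (Ne.symm hij)] at f4
    rw [chi_pair hij]
    unfold DD
    rw [f1, f2, f3, f4, hh1]
    cases x i <;> cases x j <;> simp <;> ring
  -- conclusion
  have hmain : 4 * Mco F σ {i, j} = h1 * pr (fun x => DD F i j x ≠ 0 ∧ Sat s2 x) := by
    rw [Mco_eq F σ hij hiσ hjσ, pr_eq_sum, ← mul_div_assoc, Finset.mul_sum]
    congr 1
    apply Finset.sum_congr rfl
    intro x _
    by_cases hx2 : Sat s2 x
    · rw [if_pos (sat_mono hσs2 hx2)]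
      by_cases hd : DD F i j x = 0
      · rw [hd]
        simp
      · rw [if_pos ⟨hd, hx2⟩, hB x hx2 hd, mul_one]
    · rw [if_neg (show ¬ (DD F i j x ≠ 0 ∧ Sat s2 x) from fun h => hx2 h.2), mul_zero]
      by_cases hx1 : Sat σ x
      · rw [if_pos hx1, hA x hx1 hx2, mul_zero]
      · rw [if_neg hx1]
  have hprpos : 0 < pr (fun x => DD F i j x ≠ 0 ∧ Sat s2 x) :=
    lt_of_lt_of_le (by positivity) hs2m
  have hh1abs : 1 ≤ |h1| := by
    have hex : ∃ x, DD F i j x ≠ 0 ∧ Sat s2 x := by
      by_contra hcon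
      push Not at hcon
      have : pr (fun x => DD F i j x ≠ 0 ∧ Sat s2 x) = 0 := by
        apply pr_zero
        intro x hx
        exact hcon x hx.1 hx.2
      rw [this] at hprpos
      exact lt_irrefl _ hprpos
    obtain ⟨x, hd, hx⟩ := hex
    rw [← hB x hx hd, abs_mul, chi_abs, one_mul]
    exact DD_int F i j x hd
  refine ⟨σ, ?_, con_mono hσs2 hs2c, hσcard, hiσ, hjσ, ?_⟩
  · rw [hσ]
    intro p hp
    exact Finset.mem_union_left _ (Finset.mem_union_left _ (Finset.mem_union_left _ hp))
  · have h2 : |4 * Mco F σ {i, j}| = |h1| * pr (fun x => DD F i j x ≠ 0 ∧ Sat s2 x) := by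
      rw [hmain, abs_mul, abs_of_pos hprpos]
    have h3 : c' * (1 / 2 : ℝ) ^ s2.card ≤ |4 * Mco F σ {i, j}| := by
      rw [h2]
      calc c' * (1 / 2 : ℝ) ^ s2.card ≤ pr (fun x => DD F i j x ≠ 0 ∧ Sat s2 x) := hs2m
        _ = 1 * pr (fun x => DD F i j x ≠ 0 ∧ Sat s2 x) := (one_mul _).symm
        _ ≤ _ := mul_le_mul_of_nonneg_right hh1abs hprpos.le
    rw [abs_mul, abs_of_pos (by norm_num : (0 : ℝ) < 4)] at h3
    have hs2T : s2.card ≤ T.card + (r + g) := by
      have e1 : (s2 \ τ).card + τ.card = s2.card := Finset.card_sdiff_add_card_eq_card hτs2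
      have e2 : τ.card ≤ (T ∪ ρ).card := Finset.card_le_card (st_sub _ _ _)
      have e3 := Finset.card_union_le T ρ
      omega
    have h4 : (1 / 2 : ℝ) ^ (T.card + (r + g)) ≤ (1 / 2 : ℝ) ^ s2.card :=
      pow_le_pow_of_le_one (by norm_num) (by norm_num) hs2T
    have h5 : c' * (1 / 2 : ℝ) ^ (T.card + (r + g)) ≤ c' * (1 / 2 : ℝ) ^ s2.card :=
      mul_le_mul_of_nonneg_left h4 hc'.le
    have h6 : c' / 4 * (1 / 2) ^ (r + g) * (1 / 2 : ℝ) ^ T.card =
        c' * (1 / 2 : ℝ) ^ (T.card + (r + g)) / 4 := by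
      rw [pow_add]; ring
    rw [h6]
    linarith

end Pool.Agent.Helper61.RK.DT1
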